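import Pool.Agent.Work.MP_e17eac_co.NCBase
import Pool.Agent.Work.MP_e17eac_co.NCFar
import Pool.Agent.Work.MP_e17eac_co.NCNear
import Pool.Agent.Work.MP_e17eac_co.NCSign
import Pool.Agent.Work.MP_e17eac_co.NCSum
import Pool.Agent.Work.MP_e17eac_co.NCNe
import Pool.Agent.Work.MP_e17eac_co.NCLine
import Pool.Agent.Work.MP_e17eac_co.NCBalR
import Pool.Agent.Work.MP_e17eac_co.NCH
import Pool.Agent.Work.MP_e17eac_co.NCMisc
import Pool.Agent.Work.MP_e17eac_co.NCMeas
import Pool.Agent.Work.MP_e17eac_co.NCRound
import Pool.Agent.Work.MP_e17eac_co.NCIter
import Pool.Agent.Work.MP_e17eac_co.NCStage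
import Pool.Agent.Work.MP_e17eac_co.DL.Bis

/-!
# Halving lines: `f(n) ≥ n exp((log n)^(1 - ε))`, attained by dense sets

There are `C > 0` and `n₀` such that for every even `n ≥ n₀` there is a set of `n` points in the
plane in general position with at least `n * exp (log n / exp (C * sqrt (log (log n))))` halving
lines; in particular, for every `ε > 0`, at least `n * exp ((log n) ^ (1 - ε))` for all large even
`n`. The lower bound known before was `n * exp (c * sqrt (log n))` (Tóth 2001, Nivasch 2008).
The sets are dense: all distances lie between `1 / 2` and `23 * sqrt n` (for dense sets the bound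
`n * exp (c * sqrt (log n))` is due to Kovács and Tóth, 2020).

The proof is a nested composition. A configuration of points with marked halving edges can be
composed with a pattern (a configuration with integer abscissas): around every edge a projective
copy of a lattice of translates of the pattern is placed, with all scales polynomial in the *local*
parameters (`NCDefs.lean`). Hence the result of many compositions has margins that are polynomial
in its size, it can be rounded to a pattern again (`NCRound.lean`), and the process is nested.

Density (`DL`): the abscissas of a pattern of `m` points may be perturbed so that they are distinct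
modulo `m`; then the translates of one pattern tile the integers of a ray. Very flat copies are put
on an odd number `N` of rays `± {(x, x j / N)}` with alternating signs, so that every line of a copy
halves all the other ones, and the remaining points come in antipodal pairs.
-/

set_option autoImplicit false

namespace Pool.Agent.Results.MP_e17eac_co.NestedLowerBound

open Pool.Agent.Work.MP_e17eac_co Pool.Agent.Work.MP_e17eac_co.NC

/-- The maximum number `f(n)` of halving lines of `n` points in general position satisfies
`f(n) ≥ n exp(log n / exp(C sqrt(log log n)))`, hence `f(n) ≥ n exp((log n)^(1-ε))`, for all large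
even `n`, and this is attained by dense sets: all distances between `1/2` and `23 sqrt n`. -/
theorem result :
    (∃ C : ℝ, 0 < C ∧ ∃ n₀ : ℕ, ∀ n : ℕ, n₀ ≤ n → Even n →
      ∃ P : Finset (ℝ × ℝ), P.card = n ∧ GeneralPosition P ∧
        (∀ p ∈ P, ∀ q ∈ P, p ≠ q → 1 / 2 ≤ Real.sqrt ((p.1 - q.1) ^ 2 + (p.2 - q.2) ^ 2) ∧
          Real.sqrt ((p.1 - q.1) ^ 2 + (p.2 - q.2) ^ 2) ≤ 23 * Real.sqrt n) ∧
        (bisectors P).Finite ∧
        (n : ℝ) * Real.exp (Real.log n / Real.exp (C * Real.sqrt (Real.log (Real.log n)))) ≤
          ((bisectors P).ncard : ℝ)) ∧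
    (∀ ε : ℝ, 0 < ε → ∃ n₀ : ℕ, ∀ n : ℕ, n₀ ≤ n → Even n →
      ∃ P : Finset (ℝ × ℝ), P.card = n ∧ GeneralPosition P ∧
        (∀ p ∈ P, ∀ q ∈ P, p ≠ q → 1 / 2 ≤ Real.sqrt ((p.1 - q.1) ^ 2 + (p.2 - q.2) ^ 2) ∧
          Real.sqrt ((p.1 - q.1) ^ 2 + (p.2 - q.2) ^ 2) ≤ 23 * Real.sqrt n) ∧
        (bisectors P).Finite ∧
        (n : ℝ) * Real.exp (Real.log n ^ (1 - ε)) ≤ ((bisectors P).ncard : ℝ)) := by
  have hline : ClaimLine := claimLine claimOwn
  have hsign : ClaimSign := claimSign claimFar claimSlot claimNear
  have hbal : ClaimBalR := claimBalR claimSum claimNe hline hsign claimMisc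
  have hH : ClaimH := claimH claimFar claimSlot claimOwn hline
  have hstep : ClaimStep := claimStep hbal hH claimMisc
  have hiter : ClaimIter := claimIter hstep claimMeas claimBaseCfg
  have htower : ClaimTower := claimTower (claimStage hiter claimRound) claimBasePat
  exact ⟨DL.stBis (DL.stMain htower), DL.stBisEps (DL.stEps (DL.stMain htower))⟩

end Pool.Agent.Results.MP_e17eac_co.NestedLowerBound
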