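import Pool.Agent.Work.MP_e17eac_co.PL2.Final

/-!
# Halving swaps in allowable sequences: `n ^ (6 / 5)`

The number of halving lines of `n` points is at most the maximum number of halving swaps of a
simple allowable sequence on `n` elements (a simple arrangement of `n` pseudolines). All known upper
bounds, in particular Dey's `O(n ^ (4 / 3))`, hold for allowable sequences. We show that for all
large even `n` there is an allowable sequence with at least `n ^ (6 / 5)` halving swaps.

Idea: a list of states (the number of lines of every class of parallel pseudolines below the level)
is refined by putting a new class between any two neighbouring classes. The number of lines grows by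
the factor 12, and every exchange of two lines of neighbouring classes is replaced by 20 such
exchanges; `20 ^ 5 > 12 ^ 6`. The refined list is strongly separated for every strongly separated
list (`vmicro`).
-/

set_option autoImplicit false

namespace Pool.Agent.Results.MP_e17eac_co.PseudolineLowerBound

open Pool.Agent.Work.MP_e17eac_co.PL

/-- For all large even `n` there is a simple allowable sequence on `n` elements with at least
`n ^ (6 / 5)` halving swaps. -/
theorem result :
    ∃ n₀ : ℕ, ∀ n : ℕ, n₀ ≤ n → Even n →
      ∃ A : AllowableSeq n, (n : ℝ) ^ ((6 : ℝ) / 5) ≤ (A.halvingSwaps : ℝ) :=
  Pool.Agent.Work.MP_e17eac_co.PL2.lower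
    (claimStates (claimSets claimWeak claimTrans claimSeq claimPerms))

end Pool.Agent.Results.MP_e17eac_co.PseudolineLowerBound
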