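import Mathlib
import Pool.Agent.Work.MP_e17eac_co.RP.All

set_option autoImplicit false

namespace Pool.Agent.Results.MP_e17eac_co.RandomPoints

open Finset MeasureTheory

/-- Twice the signed area of the triangle `p q r`: it is positive if `r` is strictly to the left of
the directed line from `p` to `q`, negative if `r` is strictly to the right, and zero if `r` is on
the line (for `p ≠ q`). -/
def signedArea (p q r : ℝ × ℝ) : ℝ := (q.1 - p.1) * (r.2 - p.2) - (q.2 - p.2) * (r.1 - p.1)

/-- General position: no three of the points `x i` (with pairwise different indices) are on a common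
line; for at least three points this implies that the points are pairwise different. -/
def GeneralPosition {N : ℕ} (x : Fin N → ℝ × ℝ) : Prop :=
  ∀ i j l, i ≠ j → i ≠ l → j ≠ l → signedArea (x i) (x j) (x l) ≠ 0

open Classical in
/-- The number of directed `k`-edges of the points `x l`, `l ∈ T`: ordered pairs `(i, j)` of different
elements of `T` such that exactly `k` of the points `x l`, `l ∈ T`, are strictly to the left of the
directed line from `x i` to `x j`.  In general position, with `|T|` even and `k = |T| / 2 - 1`, this is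
twice the number of bisectors (halving lines) of these points, because a bisector is counted in both
directions; for `k < |T| / 2 - 1` it is the number of undirected `k`-edges. -/
noncomputable def numEdges {N : ℕ} (x : Fin N → ℝ × ℝ) (T : Finset (Fin N)) (k : ℕ) : ℕ :=
  ((T ×ˢ T).filter fun e => e.1 ≠ e.2 ∧
    (T.filter fun l => 0 < signedArea (x e.1) (x e.2) (x l)).card = k).card

/-- THEOREM.  (1) Independent points.  Let `μ` be any probability measure on the plane that gives
measure zero to every line, and `2 k + 2 ≤ n`.  Then `n` independent points with law `μ` have on average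
at most `1400 n (k+1)^(1/6)` directed `k`-edges.  (2) Random subsets.  Let `x` be `N` points in general
position, `n < N` and `2 k + 2 ≤ n`.  Then the `n`-point subsets of `x` have on average at most
`1400 n (k+1)^(1/3) (1 + (k+1) min(n, N-n) / n)^(-1/6)` directed `k`-edges. -/
theorem result :
    (∀ (n k : ℕ), 2 * k + 2 ≤ n → ∀ (μ : Measure (ℝ × ℝ)) [IsProbabilityMeasure μ],
      (∀ p q : ℝ × ℝ, p ≠ q → μ {r | signedArea p q r = 0} = 0) →
      Integrable (fun X : Fin n → ℝ × ℝ => (numEdges X univ k : ℝ)) (Measure.pi fun _ => μ) ∧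
      ∫ X : Fin n → ℝ × ℝ, (numEdges X univ k : ℝ) ∂(Measure.pi fun _ => μ) ≤
        1400 * (n : ℝ) * ((k : ℝ) + 1) ^ ((1 : ℝ) / 6)) ∧
    (∀ (n k N : ℕ), 2 * k + 2 ≤ n → n < N → ∀ x : Fin N → ℝ × ℝ, GeneralPosition x →
      ∑ T ∈ powersetCard n (univ : Finset (Fin N)), (numEdges x T k : ℝ) ≤
        1400 * (n : ℝ) * ((k : ℝ) + 1) ^ ((1 : ℝ) / 3) *
          (1 + ((k : ℝ) + 1) * (min n (N - n) : ℕ) / (n : ℝ)) ^ (-(1 : ℝ) / 6) *
          (N.choose n : ℕ)) := by
  refine ⟨?_, ?_⟩
  · intro n k hk μ hP hμ
    exact Pool.Agent.Work.MP_e17eac_co.RP.iid_form2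
      Pool.Agent.Work.MP_e17eac_co.RP.TIk n k hk μ hμ
  · intro n k N hk hN x hx
    exact Pool.Agent.Work.MP_e17eac_co.RP.fin_form2
      Pool.Agent.Work.MP_e17eac_co.RP.TFk n k N hk hN x hx

end Pool.Agent.Results.MP_e17eac_co.RandomPoints
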